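import Pool.Agent.Helper59.LUC.Goals

/-!
# Packet PB: Parseval for a half system of primitive roots of unity
-/

set_option autoImplicit false

open Finset

namespace Pool.Agent.Helper59.LUC

namespace PkPB

/-- a primitive root of unity of order `r > 0` has norm one -/
theorem norm_one {r : ℕ} (hr : 3 ≤ r) {z : ℂ} (hz : IsPrimitiveRoot z r) : ‖z‖ = 1 :=
  hz.norm'_eq_one (by omega)

theorem conj_inv {z : ℂ} (hz : ‖z‖ = 1) : (starRingEnd ℂ) z = z⁻¹ := by
  rw [Complex.inv_def, Complex.normSq_eq_norm_sq, hz]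
  simp

/-- the cardinality of a half system -/
theorem card_half {r : ℕ} (hr : 3 ≤ r) {O : Finset ℂ} (hO : Half r O) :
    2 * O.card = r.totient := by
  classical
  have hr0 : 0 < r := by omega
  have hsub : O ⊆ primitiveRoots r ℂ := by
    intro z hz
    rw [mem_primitiveRoots hr0]
    exact hO.prim z hz
  have h1 : O.card = (primitiveRoots r ℂ \ O).card := by
    apply Finset.card_bij (fun z _ => z⁻¹)
    · intro z hz
      rw [Finset.mem_sdiff, mem_primitiveRoots hr0]
      exact ⟨(hO.prim z hz).inv, (hO.half z (hO.prim z hz)).1 hz⟩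
    · intro z _ w _ h
      exact inv_injective h
    · intro w hw
      rw [Finset.mem_sdiff, mem_primitiveRoots hr0] at hw
      refine ⟨w⁻¹, ?_, inv_inv w⟩
      by_contra hcon
      exact hw.2 ((hO.half w hw.1).2 hcon)
  have h2 := Finset.card_sdiff_add_card_eq_card hsub
  rw [Complex.card_primitiveRoots] at h2
  omega

theorem pow_inj {r a : ℕ} (ha : a.Coprime r) {z w : ℂ} (hz : z ^ r = 1) (hw : w ^ r = 1)
    (hr : 1 < r) (h : z ^ a = w ^ a) : z = w := by
  obtain ⟨b, -, hb⟩ := Nat.exists_mul_mod_eq_one_of_coprime ha hr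
  have key : ∀ x : ℂ, x ^ r = 1 → (x ^ a) ^ b = x := by
    intro x hx
    rw [← pow_mul, ← Nat.mod_add_div (a * b) r, hb, pow_add, pow_mul, hx]
    simp
  rw [← key z hz, h, key w hw]

/-- `f(k a)` and `f(k)` have the same norm for `a` coprime to `r` -/
theorem norm_sum_pow {r : ℕ} (hr : 3 ≤ r) {O : Finset ℂ} (hO : Half r O) {a : ℕ}
    (ha : a.Coprime r) (k : ℕ) : ‖∑ z ∈ O, (z ^ k) ^ a‖ = ‖∑ z ∈ O, z ^ k‖ := by
  classical
  have hpow : ∀ z ∈ O, z ^ r = 1 := fun z hz => (hO.prim z hz).pow_eq_one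
  rcases hO.orb a ha with h | h
  · have hinj : Set.InjOn (fun z : ℂ => z ^ a) (O : Set ℂ) := by
      intro z hz w hw hzw
      exact pow_inj ha (hpow z hz) (hpow w hw) (by omega) hzw
    have himg : O.image (fun z : ℂ => z ^ a) = O := by
      apply Finset.eq_of_subset_of_card_le
      · intro y hy
        obtain ⟨z, hz, rfl⟩ := Finset.mem_image.1 hy
        exact h z hz
      · rw [Finset.card_image_of_injOn hinj]
    have e : ∑ z ∈ O, z ^ k = ∑ z ∈ O, (z ^ a) ^ k := by
      conv_lhs => rw [← himg]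
      rw [Finset.sum_image hinj]
    rw [e]
    congr 1
    apply Finset.sum_congr rfl
    intro z _
    rw [← pow_mul, ← pow_mul, mul_comm]
  · have hinj : Set.InjOn (fun z : ℂ => (z ^ a)⁻¹) (O : Set ℂ) := by
      intro z hz w hw hzw
      exact pow_inj ha (hpow z hz) (hpow w hw) (by omega) (inv_injective hzw)
    have himg : O.image (fun z : ℂ => (z ^ a)⁻¹) = O := by
      apply Finset.eq_of_subset_of_card_le
      · intro y hy
        obtain ⟨z, hz, rfl⟩ := Finset.mem_image.1 hy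
        exact h z hz
      · rw [Finset.card_image_of_injOn hinj]
    have e : ∑ z ∈ O, z ^ k = ∑ z ∈ O, ((z ^ a)⁻¹) ^ k := by
      conv_lhs => rw [← himg]
      rw [Finset.sum_image hinj]
    have e2 : (starRingEnd ℂ) (∑ z ∈ O, (z ^ k) ^ a) = ∑ z ∈ O, z ^ k := by
      rw [e, map_sum]
      apply Finset.sum_congr rfl
      intro z hz
      rw [map_pow, map_pow, conj_inv (norm_one hr (hO.prim z hz)), inv_pow, inv_pow, inv_pow,
        ← pow_mul, ← pow_mul, mul_comm]
    rw [← e2]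
    exact (RCLike.norm_conj _).symm

/-- orthogonality -/
theorem geom_zero {r : ℕ} {x : ℂ} (hx : x ^ r = 1) (h1 : x ≠ 1) :
    ∑ a ∈ Finset.range r, x ^ a = 0 := by
  have h := mul_geom_sum x r
  rw [hx, sub_self] at h
  exact (mul_eq_zero.mp h).resolve_left (sub_ne_zero.mpr h1)

/-- Parseval -/
theorem parseval {r : ℕ} (hr : 3 ≤ r) {O : Finset ℂ} (hO : Half r O) (k : ℕ) :
    ∑ a ∈ Finset.range r, ‖∑ z ∈ O, (z ^ k) ^ a‖ ^ 2 =
      (r : ℝ) * ((O ×ˢ O).filter (fun p : ℂ × ℂ => p.1 ^ k = p.2 ^ k)).card := by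
  classical
  have hc : ((∑ a ∈ Finset.range r, ‖∑ z ∈ O, (z ^ k) ^ a‖ ^ 2 : ℝ) : ℂ) =
      (((r : ℝ) * ((O ×ˢ O).filter (fun p : ℂ × ℂ => p.1 ^ k = p.2 ^ k)).card : ℝ) : ℂ) := by
    rw [Complex.ofReal_sum]
    have h1 : ∀ a ∈ Finset.range r, ((‖∑ z ∈ O, (z ^ k) ^ a‖ ^ 2 : ℝ) : ℂ) =
        ∑ p ∈ O ×ˢ O, (p.1 ^ k * (p.2 ^ k)⁻¹) ^ a := by
      intro a _
      rw [← Complex.normSq_eq_norm_sq, ← Complex.mul_conj, map_sum, Finset.sum_mul_sum,
        Finset.sum_product]
      apply Finset.sum_congr rfl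
      intro z _
      apply Finset.sum_congr rfl
      intro w hw
      simp only
      rw [map_pow, map_pow, conj_inv (norm_one hr (hO.prim w hw)), mul_pow, inv_pow]
    rw [Finset.sum_congr rfl h1, Finset.sum_comm]
    have h2 : ∀ p ∈ O ×ˢ O, ∑ a ∈ Finset.range r, (p.1 ^ k * (p.2 ^ k)⁻¹) ^ a =
        if p.1 ^ k = p.2 ^ k then (r : ℂ) else 0 := by
      intro p hp
      rw [Finset.mem_product] at hp
      have hz := (hO.prim _ hp.1)
      have hw := (hO.prim _ hp.2)
      have hw0 : p.2 ≠ 0 := hw.ne_zero (by omega)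
      have hwk : p.2 ^ k ≠ 0 := pow_ne_zero k hw0
      split_ifs with h
      · rw [h, mul_inv_cancel₀ hwk]
        simp
      · apply geom_zero
        · rw [mul_pow, inv_pow, ← pow_mul, ← pow_mul, mul_comm k r, pow_mul, pow_mul,
            hz.pow_eq_one, hw.pow_eq_one]
          simp
        · intro h3
          apply h
          field_simp at h3
          exact h3
    rw [Finset.sum_congr rfl h2, ← Finset.sum_filter, Finset.sum_const, nsmul_eq_mul]
    push_cast
    ring
  exact_mod_cast hc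

theorem bound {r : ℕ} (hr : 3 ≤ r) {O : Finset ℂ} (hO : Half r O) (k : ℕ)
    (hk : ∀ z ∈ O, (O.filter (fun w => z ^ k = w ^ k)).card ≤ 2) :
    ‖∑ z ∈ O, z ^ k‖ ^ 2 ≤ (r : ℝ) := by
  classical
  have hcard := card_half hr hO
  have hφ : 0 < r.totient := Nat.totient_pos.2 (by omega)
  have hN : ((O ×ˢ O).filter (fun p : ℂ × ℂ => p.1 ^ k = p.2 ^ k)).card ≤ r.totient := by
    rw [Finset.card_filter, Finset.sum_product]
    calc ∑ z ∈ O, ∑ w ∈ O, (if z ^ k = w ^ k then 1 else 0)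
        = ∑ z ∈ O, (O.filter (fun w => z ^ k = w ^ k)).card := by
          apply Finset.sum_congr rfl
          intro z _
          rw [Finset.card_filter]
      _ ≤ ∑ z ∈ O, 2 := Finset.sum_le_sum hk
      _ = r.totient := by
          rw [Finset.sum_const, smul_eq_mul]
          omega
  have hP := parseval hr hO k
  have hlow : (r.totient : ℝ) * ‖∑ z ∈ O, z ^ k‖ ^ 2 ≤
      ∑ a ∈ Finset.range r, ‖∑ z ∈ O, (z ^ k) ^ a‖ ^ 2 := by
    have h1 : ∑ a ∈ (Finset.range r).filter (fun a => r.Coprime a), ‖∑ z ∈ O, (z ^ k) ^ a‖ ^ 2 =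
        (r.totient : ℝ) * ‖∑ z ∈ O, z ^ k‖ ^ 2 := by
      rw [Finset.sum_congr rfl (g := fun _ => ‖∑ z ∈ O, z ^ k‖ ^ 2)]
      · rw [Finset.sum_const, nsmul_eq_mul]
        rfl
      · intro a ha
        rw [Finset.mem_filter] at ha
        rw [norm_sum_pow hr hO ha.2.symm k]
    rw [← h1]
    apply Finset.sum_le_sum_of_subset_of_nonneg
    · exact Finset.filter_subset _ _
    · intro a _ _
      positivity
  rw [hP] at hlow
  have hφR : (0 : ℝ) < r.totient := by exact_mod_cast hφ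
  have hNR : (((O ×ˢ O).filter (fun p : ℂ × ℂ => p.1 ^ k = p.2 ^ k)).card : ℝ) ≤ r.totient := by
    exact_mod_cast hN
  have hrR : (0 : ℝ) ≤ r := by positivity
  have h3 : (r.totient : ℝ) * ‖∑ z ∈ O, z ^ k‖ ^ 2 ≤ (r.totient : ℝ) * (r : ℝ) := by
    calc (r.totient : ℝ) * ‖∑ z ∈ O, z ^ k‖ ^ 2
        ≤ (r : ℝ) * ((O ×ˢ O).filter (fun p : ℂ × ℂ => p.1 ^ k = p.2 ^ k)).card := hlow
      _ ≤ (r : ℝ) * r.totient := mul_le_mul_of_nonneg_left hNR hrR
      _ = _ := mul_comm _ _
  exact le_of_mul_le_mul_left h3 hφR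

theorem thm : G_PB := by
  classical
  intro r hr O hO
  refine ⟨card_half hr hO, ?_, ?_⟩
  · have h := bound hr hO 1 ?_
    · simpa using h
    · intro z hz
      apply le_trans (Finset.card_le_card (t := {z}) _)
      · simp
      · intro w hw
        simp only [pow_one, Finset.mem_filter] at hw
        simp [hw.2]
  · apply bound hr hO 2
    intro z hz
    apply le_trans (Finset.card_le_card (t := {z, -z}) _)
    · exact Finset.card_le_two
    · intro w hw
      simp only [Finset.mem_filter] at hw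
      rcases sq_eq_sq_iff_eq_or_eq_neg.1 hw.2.symm with h | h
      · simp [h]
      · simp [h]

end PkPB

end Pool.Agent.Helper59.LUC
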